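import Mathlib
import Pool.Agent.Helper97.MatVecModel
import Pool.Agent.Helper97.KrylovTop

/-!
# Gap-free top eigenvalue approximation, given an upper bound on the condition number
-/

open MeasureTheory Finset
open Pool.Agent.Helper97.MatVec Pool.Agent.Helper97.Krylov

namespace Pool.Agent.Results.MP_4289a5_an.KnownBound

/-- There are randomized matrix-vector-product algorithms, one for each dimension `n`, accuracy
`ε` and bound `K`, which on every diagonalizable `A = V diag(D) V⁻¹` with `‖V‖ ‖V⁻¹‖ ≤ K` use at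
most `41 log (20 n K) / ε²` products and return an acceptable value with probability at least
`9/10`. -/
theorem result : ∃ alg : (n : ℕ) → (ε K : ℝ) → RandAlg n,
    ∀ (n : ℕ) (ε K : ℝ), 1 ≤ n → 0 < ε → ε < 1 → 1 ≤ K →
      ∀ (A V : Matrix (Fin n) (Fin n) ℂ) (D : Fin n → ℂ),
        IsUnit V.det → A = V * Matrix.diagonal D * V⁻¹ → cond V ≤ K →
          ENNReal.ofReal (9 / 10) ≤ (alg n ε K).μ {ω | ∃ (k : ℕ) (z : ℂ),
            (k : ℝ) ≤ 41 * Real.log (20 * n * K) / ε ^ 2 ∧
              (alg n ε K).Returns A ω k z ∧ Acceptable A ε z} := by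
  classical
  refine ⟨fun n ε K => kry n ⌈40 * Real.log (20 * n * K) / ε ^ 2⌉₊ ⌈2 * Real.pi / (ε ^ 2 / 40)⌉₊,
    ?_⟩
  intro n ε K hn hε0 hε1 hK A V D hV hA hcond
  have hnr : (1 : ℝ) ≤ n := by exact_mod_cast hn
  set d := ⌈40 * Real.log (20 * n * K) / ε ^ 2⌉₊ with hd
  set N := ⌈2 * Real.pi / (ε ^ 2 / 40)⌉₊ with hN
  have hpi := Real.pi_pos
  have hC20 : 20 ≤ 20 * (n : ℝ) * K := by nlinarith
  have hL1 : 1 ≤ Real.log (20 * n * K) := by
    rw [Real.le_log_iff_exp_le (by linarith)]
    have := Real.exp_one_lt_d9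
    linarith
  have hd1 : 40 * Real.log (20 * n * K) / ε ^ 2 ≤ d := Nat.le_ceil _
  have hd0 : (0 : ℝ) < d := lt_of_lt_of_le (by positivity) hd1
  have hd0' : d ≠ 0 := by
    intro h
    rw [h] at hd0
    simp at hd0
  have hd2 : (d : ℝ) ≤ 41 * Real.log (20 * n * K) / ε ^ 2 := by
    have h1 : (d : ℝ) < 40 * Real.log (20 * n * K) / ε ^ 2 + 1 := Nat.ceil_lt_add_one (by positivity)
    have h2 : 1 ≤ Real.log (20 * n * K) / ε ^ 2 := by
      rw [le_div_iff₀ (by positivity)]
      nlinarith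
    have h3 : 41 * Real.log (20 * n * K) / ε ^ 2
        = 40 * Real.log (20 * n * K) / ε ^ 2 + Real.log (20 * n * K) / ε ^ 2 := by ring
    linarith
  have hN1 : 2 * Real.pi / (ε ^ 2 / 40) ≤ N := Nat.le_ceil _
  have hN0r : (0 : ℝ) < N := lt_of_lt_of_le (by positivity) hN1
  have hN0 : 0 < N := by exact_mod_cast hN0r
  have hN2 : 2 * Real.pi / N ≤ ε ^ 2 / 40 := by
    rw [div_le_iff₀ hN0r]
    rw [div_le_iff₀ (by positivity)] at hN1
    linarith
  have hne : Nonempty (Fin n) := ⟨⟨0, by omega⟩⟩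
  obtain ⟨j1, hj1⟩ := Finite.exists_max (fun j => ‖D j‖)
  -- the good event
  have hv : V⁻¹ j1 ≠ 0 := by
    intro h0
    have h1 : (V⁻¹ * V) j1 j1 = 1 := by rw [Matrix.nonsing_inv_mul V hV]; simp
    rw [Matrix.mul_apply] at h1
    simp [h0] at h1
  set good : Set (Fin n → Fin 10) :=
    {ω | nrm (V⁻¹ j1) / (2 * √n) ≤ ‖∑ i, V⁻¹ j1 i * start ω i‖} with hgood
  have hsub : good ⊆ {ω : Fin n → Fin 10 | ∃ (k : ℕ) (z : ℂ),
            (k : ℝ) ≤ 41 * Real.log (20 * n * K) / ε ^ 2 ∧
              (kry n d N).Returns A ω k z ∧ Acceptable A ε z} := by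
    intro ω hω
    have hans := answers_kry d N A ω ω rfl d le_rfl
    refine ⟨d, out d N (start ω) ((kry n d N).answers A ω d), hd2, ?_, ?_⟩
    · constructor
      · intro i hi
        match i, hi with
        | 0, _ => exact ⟨start ω, rfl⟩
        | i + 1, hi =>
          refine ⟨(kry n d N).answers A ω (i + 1) (Fin.last i), ?_⟩
          show (if i + 1 < d then (Sum.inl _ : (Fin n → ℂ) ⊕ ℂ) else Sum.inr _) = _
          rw [if_pos hi]
      · obtain ⟨d', hd'⟩ := Nat.exists_eq_succ_of_ne_zero hd0'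
        have key : ∀ m, m = d → m ≠ 0 → (kry n d N).step m ω ((kry n d N).answers A ω m)
            = Sum.inr (out m N (start ω) ((kry n d N).answers A ω m)) := by
          intro m hm hm0
          match m, hm, hm0 with
          | m + 1, hm, _ =>
            show (if m + 1 < d then (Sum.inl _ : (Fin n → ℂ) ⊕ ℂ) else Sum.inr _) = _
            rw [if_neg (by omega)]
        exact key d rfl hd0'
    · exact main_det hn hε0 hε1 hK hV hA hcond hd1 hN2 hN0 j1 hj1 (start ω) (nrm_start_le ω)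
        hω _ hans
  have hmeas : MeasurableSet good := (Set.toFinite good).measurableSet
  have hprob : ENNReal.ofReal (9 / 10) ≤ (PMF.uniformOfFintype (Fin n → Fin 10)).toMeasure good := by
    rw [PMF.toMeasure_uniformOfFintype_apply good hmeas]
    have hcard : (9 : ℝ) / 10 * (Fintype.card (Fin n → Fin 10) : ℝ) ≤ (Fintype.card good : ℝ) := by
      have h1 := card_bad_le (V⁻¹ j1) hv
      have h2 : Fintype.card good + (univ.filter fun ω : Fin n → Fin 10 =>
          ‖∑ i, V⁻¹ j1 i * start ω i‖ < nrm (V⁻¹ j1) / (2 * √n)).card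
          = Fintype.card (Fin n → Fin 10) := by
        rw [Fintype.card_subtype, ← Finset.card_union_of_disjoint]
        · rw [← Finset.card_univ]
          congr 1
          ext ω
          simp only [mem_union, mem_filter, mem_univ, true_and, iff_true]
          exact le_or_gt (nrm (V⁻¹ j1) / (2 * √n)) ‖∑ i, V⁻¹ j1 i * start ω i‖
        · rw [Finset.disjoint_filter]
          intro ω _ h3
          exact not_lt.mpr (show nrm (V⁻¹ j1) / (2 * √n) ≤ ‖∑ i, V⁻¹ j1 i * start ω i‖ from h3)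
      have h3 : Fintype.card (Fin n → Fin 10) = 10 ^ n := by simp
      rw [h3] at h2 ⊢
      have h4 : (10 : ℝ) * ((univ.filter fun ω : Fin n → Fin 10 =>
          ‖∑ i, V⁻¹ j1 i * start ω i‖ < nrm (V⁻¹ j1) / (2 * √n)).card : ℝ) ≤ (10 : ℝ) ^ n := by
        exact_mod_cast h1
      have h5 : (Fintype.card good : ℝ) + ((univ.filter fun ω : Fin n → Fin 10 =>
          ‖∑ i, V⁻¹ j1 i * start ω i‖ < nrm (V⁻¹ j1) / (2 * √n)).card : ℝ) = (10 : ℝ) ^ n := by
        exact_mod_cast h2
      push_cast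
      linarith
    rw [ENNReal.le_div_iff_mul_le (Or.inl (by simp)) (Or.inl (by simp))]
    rw [← ENNReal.ofReal_natCast, ← ENNReal.ofReal_natCast, ← ENNReal.ofReal_mul (by norm_num)]
    exact ENNReal.ofReal_le_ofReal hcard
  exact hprob.trans (measure_mono hsub)

end Pool.Agent.Results.MP_4289a5_an.KnownBound
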