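import Mathlib
import Pool.Agent.Helper97.MatVecModel
import Pool.Agent.Helper97.LB.Final

/-!
# No polylogarithmic gap-free top eigenvalue algorithm when the condition number is unknown
-/

open Pool.Agent.Helper97.MatVec

namespace Pool.Agent.Results.MP_4289a5_an.Q1Negative

/-- For every family of randomized matrix-vector-product algorithms (one for each dimension `n`
and accuracy `ε`, with no information about the condition number) and every polynomial `P` in two
variables there are a dimension `n` and a diagonalizable `A = V diag(D) V⁻¹` such that, at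
accuracy `ε = 1/4`, the algorithm stops after at most `P(log (n κ), 1/ε)` products and returns an
acceptable value with probability less than `2/3`, where `κ = ‖V‖ ‖V⁻¹‖`. -/
theorem result (alg : (n : ℕ) → (ε : ℝ) → RandAlg n) (P : MvPolynomial (Fin 2) ℝ) :
    ∃ (n : ℕ) (A V : Matrix (Fin n) (Fin n) ℂ) (D : Fin n → ℂ),
      1 ≤ n ∧ IsUnit V.det ∧ A = V * Matrix.diagonal D * V⁻¹ ∧
        (alg n (1 / 4)).μ {ω | ∃ (k : ℕ) (z : ℂ),
          (k : ℝ) ≤ MvPolynomial.eval ![Real.log (n * cond V), 4] P ∧
            (alg n (1 / 4)).Returns A ω k z ∧ Acceptable A (1 / 4) z}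
          < ENNReal.ofReal (2 / 3) := by
  by_contra h
  apply Pool.Agent.Helper97.LB.lower_bound alg P
  intro n hn A V D hV hA
  by_contra h2
  exact h ⟨n, A, V, D, hn, hV, hA, not_le.1 h2⟩

end Pool.Agent.Results.MP_4289a5_an.Q1Negative
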